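import Pool.Agent.H770R3.ShimA

/-!
Reproducing kernels, the spaces `H_k ⊗ ℂ^N`, contractive multipliers.
-/

set_option autoImplicit false

namespace Q93.Pick

open scoped InnerProductSpace ComplexOrder ComplexConjugate
open Matrix

universe u

/-- A kernel on `X`: a positive semidefinite function `X × X → ℂ`. -/
structure Kernel (X : Type u) where
  /-- the function -/
  fn : Matrix X X ℂ
  /-- positive semidefiniteness -/
  psd : fn.PosSemidef

/-- The operator-valued kernel `k(x,y) I_N`, whose reproducing kernel Hilbert space is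
`H_k ⊗ ℂ^N`. -/
noncomputable def tensorFn {X : Type u} (N : ℕ) (k : Matrix X X ℂ) :
    Matrix X X (EuclideanSpace ℂ (Fin N) →L[ℂ] EuclideanSpace ℂ (Fin N)) :=
  Matrix.of fun x y => k x y • ContinuousLinearMap.id ℂ (EuclideanSpace ℂ (Fin N))

theorem tensorFn_psd {X : Type u} (N : ℕ) {k : Matrix X X ℂ} (hk : k.PosSemidef) :
    (tensorFn N k).PosSemidef := by
  have hh : (tensorFn N k).IsHermitian := by
    refine Matrix.ext fun x y => ?_
    rw [Matrix.conjTranspose_apply]
    apply ContinuousLinearMap.ext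
    intro v
    apply ext_inner_right ℂ
    intro w
    rw [ContinuousLinearMap.star_eq_adjoint, ContinuousLinearMap.adjoint_inner_left]
    simp only [tensorFn, Matrix.of_apply, _root_.smul_apply, ContinuousLinearMap.id_apply,
      inner_smul_left, inner_smul_right, Pool.Agent.H770R3.Shim.psd_herm hk]
  have key : (tensorFn N k).PosSemidef ↔ (tensorFn N k).IsHermitian ∧
      ∀ (vv : X →₀ EuclideanSpace ℂ (Fin N)), 0 ≤ RCLike.re (vv.sum fun x w ↦
        vv.sum fun x' w' ↦ ⟪(tensorFn N k) x' x w, w'⟫_ℂ) := RKHS.posSemidef_tfae.out 0 2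
  refine key.mpr ⟨hh, fun vv => ?_⟩
  have h1 := Pool.Agent.H770R3.Shim.Q_nonneg hk vv.support vv
  have h2 : (vv.sum fun x w ↦ vv.sum fun x' w' ↦ ⟪(tensorFn N k) x' x w, w'⟫_ℂ)
      = ∑ i ∈ vv.support, ∑ j ∈ vv.support, k i j * ⟪vv i, vv j⟫_ℂ := by
    simp only [Finsupp.sum]
    refine Finset.sum_congr rfl fun i _ => Finset.sum_congr rfl fun j _ => ?_
    simp only [tensorFn, Matrix.of_apply, _root_.smul_apply, ContinuousLinearMap.id_apply,
      inner_smul_left, Pool.Agent.H770R3.Shim.psd_herm hk]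
  rw [h2]
  exact h1

instance {X : Type u} (N : ℕ) (k : Kernel X) : Fact (tensorFn N k.fn).PosSemidef :=
  ⟨tensorFn_psd N k.psd⟩

/-- The Hilbert space `H_k ⊗ ℂ^N` of `ℂ^N`-valued functions on `X`: the reproducing kernel
Hilbert space with kernel `k(x,y) I_N`. -/
abbrev Space {X : Type u} (k : Kernel X) (N : ℕ) : Type u := RKHS.OfKernel (tensorFn N k.fn)

/-- `Φ : X → M_N` is a contractive multiplier from `H_k ⊗ ℂ^N` to `H_l ⊗ ℂ^N`: for every `f` in
the first space the pointwise product `x ↦ Φ(x) f(x)` lies in the second space and has norm at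
most `‖f‖`. -/
def IsContractiveMultiplier {X : Type u} {N : ℕ} (k l : Kernel X)
    (Φ : X → Matrix (Fin N) (Fin N) ℂ) : Prop :=
  ∀ f : Space k N, ∃ g : Space l N, (∀ x, g x = Matrix.toEuclideanLin (Φ x) (f x)) ∧ ‖g‖ ≤ ‖f‖

end Q93.Pick
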