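import Pool.Agent.Q93.Pick.Defs

/-!
The Pick inequality on finite sets characterises contractive multipliers.
-/

set_option autoImplicit false

namespace Q93.Pick

open scoped InnerProductSpace ComplexOrder ComplexConjugate
open Matrix Pool.Agent.H770R3.Shim

universe u

variable {X : Type u} {N : ℕ}

/-- the adjoint linear map of the value of `Φ` -/
noncomputable abbrev adjMap {ι : Type*} (Φ : ι → Matrix (Fin N) (Fin N) ℂ) (x : ι) :
    E N →ₗ[ℂ] E N :=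
  Matrix.toEuclideanLin (Φ x)ᴴ

lemma inner_adjMap (A : Matrix (Fin N) (Fin N) ℂ) (v w : E N) :
    ⟪Matrix.toEuclideanLin Aᴴ v, w⟫_ℂ = ⟪v, Matrix.toEuclideanLin A w⟫_ℂ := by
  rw [Matrix.toEuclideanLin_conjTranspose_eq_adjoint, LinearMap.adjoint_inner_left]

lemma inner_kf (k : Kernel X) (x y : X) (v w : E N) :
    ⟪RKHS.kerFun (Space k N) x v, RKHS.kerFun (Space k N) y w⟫_ℂ = k.fn x y * ⟪v, w⟫_ℂ := by
  rw [← RKHS.kernel_inner, RKHS.OfKernel.kernel_ofKernel]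
  simp only [tensorFn, Matrix.of_apply, _root_.smul_apply, ContinuousLinearMap.id_apply,
    inner_smul_left, psd_herm k.psd]

lemma norm_sum_kf (k : Kernel X) (F : Finset X) (h : X → E N) :
    ‖∑ i ∈ F, RKHS.kerFun (Space k N) i (h i)‖ ^ 2 = Q k.fn F h := by
  have h1 : ((‖∑ i ∈ F, RKHS.kerFun (Space k N) i (h i)‖ ^ 2 : ℝ) : ℂ)
      = ∑ i ∈ F, ∑ j ∈ F, k.fn i j * ⟪h i, h j⟫_ℂ := by
    have h2 := inner_self_eq_norm_sq_to_K (𝕜 := ℂ) (∑ i ∈ F, RKHS.kerFun (Space k N) i (h i))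
    push_cast
    rw [← Complex.coe_algebraMap, ← h2, sum_inner]
    refine Finset.sum_congr rfl fun i _ => ?_
    rw [inner_sum]
    exact Finset.sum_congr rfl fun j _ => inner_kf k i j _ _
  have h3 := congrArg Complex.re h1
  rw [Complex.ofReal_re] at h3
  exact h3

/-- the Pick inequality on all finite sets gives a contractive multiplier -/
lemma multiplier_of_Q {k l : Kernel X} {Φ : X → Matrix (Fin N) (Fin N) ℂ}
    (hQ : ∀ (F : Finset X) (h : X → E N), Q k.fn F (fun i => adjMap Φ i (h i)) ≤ Q l.fn F h) :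
    IsContractiveMultiplier k l Φ := by
  classical
  intro f
  let Ψ : (X →₀ E N) →ₗ[ℂ] Space l N :=
    Finsupp.lsum ℂ fun x => (RKHS.kerFun (Space l N) x : E N →ₗ[ℂ] Space l N)
  let Θ : (X →₀ E N) →ₗ[ℂ] Space k N :=
    Finsupp.lsum ℂ fun x => (RKHS.kerFun (Space k N) x : E N →ₗ[ℂ] Space k N) ∘ₗ adjMap Φ x
  have hΨ : ∀ v : X →₀ E N, Ψ v = ∑ i ∈ v.support, RKHS.kerFun (Space l N) i (v i) := fun v => rfl
  have hΘ : ∀ v : X →₀ E N, Θ v = ∑ i ∈ v.support, RKHS.kerFun (Space k N) i (adjMap Φ i (v i)) :=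
    fun v => rfl
  have hle : ∀ v, ‖Θ v‖ ≤ ‖Ψ v‖ := by
    intro v
    rw [← sq_le_sq₀ (norm_nonneg _) (norm_nonneg _), hΨ, hΘ, norm_sum_kf, norm_sum_kf]
    exact hQ v.support v
  let lam : (X →₀ E N) →ₗ[ℂ] ℂ := (innerSL ℂ f : Space k N →ₗ[ℂ] ℂ) ∘ₗ Θ
  have hlam : ∀ v, lam v = ⟪f, Θ v⟫_ℂ := fun v => rfl
  have hlamle : ∀ v, ‖lam v‖ ≤ ‖f‖ * ‖Ψ v‖ := by
    intro v
    rw [hlam]
    exact (norm_inner_le_norm _ _).trans (mul_le_mul_of_nonneg_left (hle v) (norm_nonneg _))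
  obtain ⟨s, hs⟩ := Ψ.rangeRestrict.exists_rightInverse_of_surjective
    (LinearMap.range_eq_top.mpr Ψ.surjective_rangeRestrict)
  have hs' : ∀ w : LinearMap.range Ψ, Ψ (s w) = w := by
    intro w
    have h1 : Ψ.rangeRestrict (s w) = w := LinearMap.congr_fun hs w
    exact congrArg Subtype.val h1
  let lam' : LinearMap.range Ψ →L[ℂ] ℂ := (lam ∘ₗ s).mkContinuous ‖f‖ (by
    intro w
    have := hlamle (s w)
    rw [hs'] at this
    exact this)
  obtain ⟨G, hG1, hG2⟩ := exists_extension_norm_eq (LinearMap.range Ψ) lam'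
  have hGn : ‖G‖ ≤ ‖f‖ := by
    rw [hG2]
    exact LinearMap.mkContinuous_norm_le _ (norm_nonneg _) _
  have hGΨ : ∀ v, G (Ψ v) = lam v := by
    intro v
    have h1 := hG1 ⟨Ψ v, v, rfl⟩
    rw [h1]
    have h2 : lam' ⟨Ψ v, v, rfl⟩ = lam (s ⟨Ψ v, v, rfl⟩) := rfl
    rw [h2]
    have h3 := hlamle (s ⟨Ψ v, v, rfl⟩ - v)
    rw [map_sub, map_sub, hs', sub_self, norm_zero, mul_zero] at h3
    exact sub_eq_zero.mp (norm_le_zero_iff.mp h3)
  let g : Space l N := (InnerProductSpace.toDual ℂ (Space l N)).symm G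
  refine ⟨g, fun x => ?_, ?_⟩
  · refine ext_inner_right ℂ fun v => ?_
    have h1 : ⟪g, Ψ (Finsupp.single x v)⟫_ℂ = lam (Finsupp.single x v) := by
      rw [← hGΨ]
      exact InnerProductSpace.toDual_symm_apply
    have h2 : Ψ (Finsupp.single x v) = RKHS.kerFun (Space l N) x v := by
      simp [Ψ]
    have h3 : lam (Finsupp.single x v) = ⟪f, RKHS.kerFun (Space k N) x (adjMap Φ x v)⟫_ℂ := by
      rw [hlam]; simp [Θ]
    rw [h2, h3, RKHS.inner_kerFun, RKHS.inner_kerFun] at h1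
    rw [h1]
    rw [← inner_conj_symm, inner_adjMap, inner_conj_symm]
  · have : ‖g‖ = ‖G‖ := LinearIsometryEquiv.norm_map _ _
    rw [this]
    exact hGn

end Q93.Pick
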