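import Pool.Agent.Q93.Pick.Defs

/-!
Complete pseudo-Pick pairs.
-/

set_option autoImplicit false

namespace Q93.Pick

open Matrix
open scoped ComplexOrder

universe u

/-- The block matrix `[(I - W_i W_j^*) k(z_i, z_j)]`, `i, j = 1, …, n`, written as a scalar matrix
indexed by pairs (index of the point, coordinate in `ℂ^N`). -/
noncomputable def pickMatrix {X : Type u} {n N : ℕ} (k : Kernel X) (z : Fin n → X)
    (W : Fin n → Matrix (Fin N) (Fin N) ℂ) : Matrix (Fin n × Fin N) (Fin n × Fin N) ℂ :=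
  Matrix.of fun a b =>
    ((1 : Matrix (Fin N) (Fin N) ℂ) - W a.1 * (W b.1)ᴴ) a.2 b.2 * k.fn (z a.1) (z b.1)

/-- The pair `(k, l)` is complete pseudo-Pick: for every `n ≥ 1`, all points `z_1, …, z_n` and all
`n × n` matrices `W_1, …, W_n` with positive semidefinite matrix `[(I - W_i W_j^*) k(z_i, z_j)]`
there is a contractive multiplier `Φ` of `H_l ⊗ ℂ^n` with `Φ(z_i) = W_i` for all `i`. -/
def IsCompletePseudoPick {X : Type u} (k l : Kernel X) : Prop :=
  ∀ n : ℕ, 1 ≤ n → ∀ (z : Fin n → X) (W : Fin n → Matrix (Fin n) (Fin n) ℂ),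
    (pickMatrix k z W).PosSemidef →
      ∃ Φ : X → Matrix (Fin n) (Fin n) ℂ, IsContractiveMultiplier l l Φ ∧ ∀ i, Φ (z i) = W i

end Q93.Pick
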