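import Pool.Agent.Q93.Pick.Two
import Pool.Agent.Q93.Pick.PseudoDefs

/-!
The pair of kernels `1, -2/5` and `1, 1/4` on three points is complete pseudo-Pick.
-/

set_option autoImplicit false
set_option maxHeartbeats 4000000

namespace Q93.Pick.Three

open scoped InnerProductSpace ComplexOrder ComplexConjugate
open Matrix Pool.Agent.H770R3.Shim Q93.Pick

/-- The first kernel. -/
noncomputable def kMat : Matrix (Fin 3) (Fin 3) ℂ := Matrix.of fun i j => (kap i j : ℂ)

/-- The second kernel. -/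
noncomputable def lMat : Matrix (Fin 3) (Fin 3) ℂ := Matrix.of fun i j => (lam i j : ℂ)

lemma kap_symm (i j : Fin 3) : kap i j = kap j i := by simp [kap, eq_comm]

lemma lam_symm (i j : Fin 3) : lam i j = lam j i := by simp [lam, eq_comm]

theorem kMat_posDef : kMat.PosDef := by
  apply Matrix.PosDef.of_dotProduct_mulVec_pos
  · ext i j
    simp [kMat, kap_symm j i]
  · intro x hx
    have hre : star x ⬝ᵥ kMat *ᵥ x = ((1 / 5 * (Complex.normSq (x 0) + Complex.normSq (x 1) +
        Complex.normSq (x 2)) + 2 / 5 * (Complex.normSq (x 0 - x 1) + Complex.normSq (x 0 - x 2) +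
        Complex.normSq (x 1 - x 2)) : ℝ) : ℂ) := by
      apply Complex.ext
      · simp [kMat, kap_eq, dotProduct, Matrix.mulVec, Fin.sum_univ_three, Complex.normSq_apply]
        ring
      · simp [kMat, kap_eq, dotProduct, Matrix.mulVec, Fin.sum_univ_three, Complex.normSq_apply]
        ring
    rw [hre]
    have h0 : 0 < Complex.normSq (x 0) + Complex.normSq (x 1) + Complex.normSq (x 2) := by
      by_contra hcon
      have h0 := Complex.normSq_nonneg (x 0)
      have h1 := Complex.normSq_nonneg (x 1)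
      have h2 := Complex.normSq_nonneg (x 2)
      have e0 : x 0 = 0 := Complex.normSq_eq_zero.1 (by linarith)
      have e1 : x 1 = 0 := Complex.normSq_eq_zero.1 (by linarith)
      have e2 : x 2 = 0 := Complex.normSq_eq_zero.1 (by linarith)
      apply hx
      ext i
      fin_cases i
      · exact e0
      · exact e1
      · exact e2
    have h1 := Complex.normSq_nonneg (x 0 - x 1)
    have h2 := Complex.normSq_nonneg (x 0 - x 2)
    have h3 := Complex.normSq_nonneg (x 1 - x 2)
    exact_mod_cast (by linarith : (0 : ℝ) < _)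

theorem lMat_posDef : lMat.PosDef := by
  apply Matrix.PosDef.of_dotProduct_mulVec_pos
  · ext i j
    simp [lMat, lam_symm j i]
  · intro x hx
    have hre : star x ⬝ᵥ lMat *ᵥ x = ((3 / 4 * (Complex.normSq (x 0) + Complex.normSq (x 1) +
        Complex.normSq (x 2)) + 1 / 4 * Complex.normSq (x 0 + x 1 + x 2) : ℝ) : ℂ) := by
      apply Complex.ext
      · simp [lMat, lam_eq, dotProduct, Matrix.mulVec, Fin.sum_univ_three, Complex.normSq_apply]
        ring
      · simp [lMat, lam_eq, dotProduct, Matrix.mulVec, Fin.sum_univ_three, Complex.normSq_apply]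
        ring
    rw [hre]
    have h0 : 0 < Complex.normSq (x 0) + Complex.normSq (x 1) + Complex.normSq (x 2) := by
      by_contra hcon
      have h0 := Complex.normSq_nonneg (x 0)
      have h1 := Complex.normSq_nonneg (x 1)
      have h2 := Complex.normSq_nonneg (x 2)
      have e0 : x 0 = 0 := Complex.normSq_eq_zero.1 (by linarith)
      have e1 : x 1 = 0 := Complex.normSq_eq_zero.1 (by linarith)
      have e2 : x 2 = 0 := Complex.normSq_eq_zero.1 (by linarith)
      apply hx
      ext i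
      fin_cases i
      · exact e0
      · exact e1
      · exact e2
    have h1 := Complex.normSq_nonneg (x 0 + x 1 + x 2)
    exact_mod_cast (by linarith : (0 : ℝ) < _)

theorem quot_not_psd : ¬ (Matrix.of fun i j => lMat i j / kMat i j).PosSemidef := by
  intro h
  have h1 := h.dotProduct_mulVec_nonneg (fun _ => 1)
  have h2 : star (fun _ : Fin 3 => (1 : ℂ)) ⬝ᵥ (Matrix.of fun i j => lMat i j / kMat i j) *ᵥ
      (fun _ => 1) = ((-3 / 4 : ℝ) : ℂ) := by
    simp [lMat, kMat, kap_eq, lam_eq, dotProduct, Matrix.mulVec, Fin.sum_univ_three]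
    norm_num
  rw [h2] at h1
  have h3 : (0 : ℝ) ≤ -3 / 4 := by exact_mod_cast h1
  norm_num at h3

/-- The kernel `k`. -/
noncomputable def kK : Kernel (Fin 3) := ⟨kMat, kMat_posDef.posSemidef⟩

/-- The kernel `l`. -/
noncomputable def lK : Kernel (Fin 3) := ⟨lMat, lMat_posDef.posSemidef⟩

/-- Positivity of the Pick matrix as a quadratic inequality. -/
theorem form_of_pick {n N : ℕ} {z : Fin n → Fin 3} {W : Fin n → Matrix (Fin N) (Fin N) ℂ}
    (h : (pickMatrix kK z W).PosSemidef) (u : Fin n → E N) :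
    0 ≤ ∑ i, ∑ j, kap (z i) (z j) * nf (adjMap W) i j (u i) (u j) := by
  have h1 := h.dotProduct_mulVec_nonneg (fun a => u a.1 a.2)
  have h2 : star (fun a : Fin n × Fin N => u a.1 a.2) ⬝ᵥ (pickMatrix kK z W) *ᵥ
      (fun a => u a.1 a.2) =
      ∑ i, ∑ j, (kap (z i) (z j) : ℂ) * (⟪u i, u j⟫_ℂ - ⟪adjMap W i (u i), adjMap W j (u j)⟫_ℂ) := by
    have h3 : ∀ i j : Fin n, (⟪u i, u j⟫_ℂ - ⟪adjMap W i (u i), adjMap W j (u j)⟫_ℂ) =
        ∑ m, ∑ l, star (u i m) * (((1 : Matrix (Fin N) (Fin N) ℂ) - W i * (W j)ᴴ) m l * u j l) := by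
      intro i j
      have h4 : ⟪adjMap W i (u i), adjMap W j (u j)⟫_ℂ =
          ⟪u i, Matrix.toEuclideanLin (W i * (W j)ᴴ) (u j)⟫_ℂ := by
        rw [adjMap, inner_adjMap]
        congr 1
        simp [Matrix.toLpLin_apply, Matrix.mulVec_mulVec]
      rw [h4, ← inner_sub_right]
      have h5 : u j - Matrix.toEuclideanLin (W i * (W j)ᴴ) (u j) =
          Matrix.toEuclideanLin ((1 : Matrix (Fin N) (Fin N) ℂ) - W i * (W j)ᴴ) (u j) := by
        rw [map_sub]
        simp [Matrix.toLpLin_apply]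
      rw [h5, EuclideanSpace.inner_eq_star_dotProduct]
      simp only [dotProduct, Matrix.toLpLin_apply, Matrix.mulVec, Finset.sum_mul, Pi.star_apply]
      apply Finset.sum_congr rfl
      intro m _
      apply Finset.sum_congr rfl
      intro l _
      ring
    simp only [dotProduct, Matrix.mulVec, Fintype.sum_prod_type, Pi.star_apply, pickMatrix,
      Matrix.of_apply, Finset.mul_sum]
    apply Finset.sum_congr rfl
    intro i _
    rw [Finset.sum_comm]
    apply Finset.sum_congr rfl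
    intro j _
    rw [h3, Finset.mul_sum]
    apply Finset.sum_congr rfl
    intro m _
    rw [Finset.mul_sum]
    apply Finset.sum_congr rfl
    intro l _
    simp only [kK, kMat, Matrix.of_apply]
    ring
  rw [h2] at h1
  have h4 := (Complex.nonneg_iff.1 h1).1
  simp only [Complex.re_sum, Complex.re_ofReal_mul, Complex.sub_re] at h4
  exact h4

/-- The quadratic inequality for `l` gives a contractive multiplier. -/
theorem mult_of_form {N : ℕ} {Φ : Fin 3 → Matrix (Fin N) (Fin N) ℂ}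
    (h : ∀ v : Fin 3 → E N, 0 ≤ ∑ i, ∑ j, lam i j * nf (adjMap Φ) i j (v i) (v j)) :
    IsContractiveMultiplier lK lK Φ := by
  apply multiplier_of_Q
  intro F v
  have h1 := h fun i => if i ∈ F then v i else 0
  have h2 : ∑ i, ∑ j, lam i j * nf (adjMap Φ) i j (if i ∈ F then v i else 0)
      (if j ∈ F then v j else 0) = ∑ i ∈ F, ∑ j ∈ F, lam i j * nf (adjMap Φ) i j (v i) (v j) := by
    rw [← Finset.sum_subset (Finset.subset_univ F)]
    · apply Finset.sum_congr rfl
      intro i hi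
      rw [← Finset.sum_subset (Finset.subset_univ F)]
      · apply Finset.sum_congr rfl
        intro j hj
        simp [hi, hj]
      · intro j _ hj
        simp [hj, nf]
    · intro i _ hi
      apply Finset.sum_eq_zero
      intro j _
      simp [hi, nf]
  rw [h2] at h1
  have h3 : Q lK.fn F v - Q lK.fn F (fun i => adjMap Φ i (v i)) =
      ∑ i ∈ F, ∑ j ∈ F, lam i j * nf (adjMap Φ) i j (v i) (v j) := by
    rw [Q, Q, ← Complex.sub_re, ← Finset.sum_sub_distrib, Complex.re_sum]
    apply Finset.sum_congr rfl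
    intro i _
    rw [← Finset.sum_sub_distrib, Complex.re_sum]
    apply Finset.sum_congr rfl
    intro j _
    simp only [lK, lMat, Matrix.of_apply, nf]
    rw [← mul_sub, Complex.re_ofReal_mul, Complex.sub_re]
  linarith

lemma adj_ext {N : ℕ} {M M' : Matrix (Fin N) (Fin N) ℂ}
    (h : ∀ u : E N, Matrix.toEuclideanLin Mᴴ u = Matrix.toEuclideanLin M'ᴴ u) : M = M' := by
  have h1 : Matrix.toEuclideanLin Mᴴ = Matrix.toEuclideanLin M'ᴴ := LinearMap.ext h
  exact Matrix.conjTranspose_injective (Matrix.toEuclideanLin.injective h1)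

/-- data at the same point coincide -/
theorem eq_of_same {n N : ℕ} {z : Fin n → Fin 3} {W : Fin n → Matrix (Fin N) (Fin N) ℂ}
    (hP : ∀ u : Fin n → E N, 0 ≤ ∑ i, ∑ j, kap (z i) (z j) * nf (adjMap W) i j (u i) (u j))
    {i j : Fin n} (hij : z i = z j) : W i = W j := by
  apply adj_ext
  intro u
  have h := pull hP ![i, j] ![u, -u]
  simp only [Fin.sum_univ_two, Matrix.cons_val_zero, Matrix.cons_val_one] at h
  rw [hij] at h
  have hk : kap (z j) (z j) = 1 := by simp [kap]
  rw [hk] at h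
  have h2 : nf (adjMap W) i i u u + nf (adjMap W) i j u (-u) + (nf (adjMap W) j i (-u) u +
      nf (adjMap W) j j (-u) (-u)) =
      -(⟪adjMap W i u - adjMap W j u, adjMap W i u - adjMap W j u⟫_ℂ).re := by
    simp only [nf, map_neg, inner_neg_left, inner_neg_right, inner_sub_left, inner_sub_right,
      Complex.sub_re, Complex.neg_re]
    ring
  have h3 : 0 ≤ (⟪adjMap W i u - adjMap W j u, adjMap W i u - adjMap W j u⟫_ℂ).re :=
    inner_self_nonneg (𝕜 := ℂ)
  have h4 : ‖adjMap W i u - adjMap W j u‖ ^ 2 =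
      (⟪adjMap W i u - adjMap W j u, adjMap W i u - adjMap W j u⟫_ℂ).re :=
    (inner_self_eq_norm_sq (𝕜 := ℂ) _).symm
  have h5 : ‖adjMap W i u - adjMap W j u‖ ^ 2 = 0 := by linarith
  exact sub_eq_zero.1 (norm_eq_zero.1 (pow_eq_zero_iff (two_ne_zero) |>.1 h5))

/-- Two-point data extend. -/
theorem extend_two {N : ℕ} (p : Equiv.Perm (Fin 3)) (M₀ M₁ : Matrix (Fin N) (Fin N) ℂ)
    (hM : ∀ w₀ w₁ : E N, 0 ≤ nf (adjMap ![M₀, M₁]) 0 0 w₀ w₀ + nf (adjMap ![M₀, M₁]) 1 1 w₁ w₁ -
      2 / 5 * (nf (adjMap ![M₀, M₁]) 0 1 w₀ w₁ + nf (adjMap ![M₀, M₁]) 1 0 w₁ w₀)) :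
    ∃ Φ : Fin 3 → Matrix (Fin N) (Fin N) ℂ, IsContractiveMultiplier lK lK Φ ∧
      Φ (p 0) = M₀ ∧ Φ (p 1) = M₁ := by
  set Ψ : Fin 3 → Matrix (Fin N) (Fin N) ℂ := ![M₀, M₁, (1 / 2 : ℂ) • (M₀ + M₁)] with hΨ
  refine ⟨fun x => Ψ (p.symm x), ?_, by simp [hΨ], by simp [hΨ]⟩
  apply mult_of_form
  intro v
  have h1 : ∑ i, ∑ j, lam i j * nf (adjMap fun x => Ψ (p.symm x)) i j (v i) (v j) =
      ∑ i, ∑ j, lam i j * nf (adjMap Ψ) i j (v (p i)) (v (p j)) := by
    rw [← Equiv.sum_comp p]
    apply Finset.sum_congr rfl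
    intro i _
    rw [← Equiv.sum_comp p]
    apply Finset.sum_congr rfl
    intro j _
    rw [lam_perm]
    simp [nf, adjMap]
  rw [h1]
  apply two_point (A := adjMap Ψ)
  · intro u
    have : (Ψ 2)ᴴ = (1 / 2 : ℂ) • ((Ψ 0)ᴴ + (Ψ 1)ᴴ) := by
      simp only [hΨ, Matrix.cons_val_zero, Matrix.cons_val_one, Matrix.cons_val]
      rw [Matrix.conjTranspose_smul, Matrix.conjTranspose_add]
      simp
    simp only [adjMap, this, map_smul, map_add, LinearMap.smul_apply, LinearMap.add_apply]
  · intro w₀ w₁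
    exact hM w₀ w₁

theorem complete : IsCompletePseudoPick kK lK := by
  classical
  intro n hn z W hpsd
  have hP := fun u => form_of_pick hpsd u
  by_cases hsurj : Function.Surjective z
  · choose s hs using hsurj
    refine ⟨fun x => W (s x), ?_, fun i => eq_of_same hP (hs (z i))⟩
    apply mult_of_form
    intro v
    apply three_point (A := adjMap fun x => W (s x))
    intro w
    have h := pull hP s w
    simp only [hs] at h
    exact h
  · rw [Function.Surjective] at hsurj
    push Not at hsurj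
    obtain ⟨c, hc⟩ := hsurj
    set p : Equiv.Perm (Fin 3) := Equiv.swap c 2 with hp
    have hp2 : p 2 = c := by simp [hp]
    have hcov : ∀ i, z i = p 0 ∨ z i = p 1 := by
      intro i
      have h3 : ∀ y : Fin 3, y = 0 ∨ y = 1 ∨ y = 2 := by decide
      rcases h3 (p.symm (z i)) with h | h | h
      · left; rw [← h]; simp
      · right; rw [← h]; simp
      · exfalso
        apply hc i
        rw [← hp2, ← h]
        simp
    have hne : p 0 ≠ p 1 := fun h => by
      have := p.injective h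
      exact absurd this (by decide)
    by_cases h0 : ∃ i, z i = p 0
    · obtain ⟨i₀, hi₀⟩ := h0
      by_cases h1 : ∃ i, z i = p 1
      · obtain ⟨i₁, hi₁⟩ := h1
        obtain ⟨Φ, hΦ, hΦ0, hΦ1⟩ := extend_two p (W i₀) (W i₁) (by
          intro w₀ w₁
          have h := pull hP ![i₀, i₁] ![w₀, w₁]
          simp only [Fin.sum_univ_two, Matrix.cons_val_zero, Matrix.cons_val_one, hi₀, hi₁] at h
          have k1 : kap (p 0) (p 0) = 1 := by simp [kap]
          have k2 : kap (p 1) (p 1) = 1 := by simp [kap]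
          have k3 : kap (p 0) (p 1) = -2 / 5 := by simp [kap, hne]
          have k4 : kap (p 1) (p 0) = -2 / 5 := by simp [kap, hne.symm]
          rw [k1, k2, k3, k4] at h
          have e00 : nf (adjMap ![W i₀, W i₁]) 0 0 w₀ w₀ = nf (adjMap W) i₀ i₀ w₀ w₀ := rfl
          have e11 : nf (adjMap ![W i₀, W i₁]) 1 1 w₁ w₁ = nf (adjMap W) i₁ i₁ w₁ w₁ := rfl
          have e01 : nf (adjMap ![W i₀, W i₁]) 0 1 w₀ w₁ = nf (adjMap W) i₀ i₁ w₀ w₁ := rfl
          have e10 : nf (adjMap ![W i₀, W i₁]) 1 0 w₁ w₀ = nf (adjMap W) i₁ i₀ w₁ w₀ := rfl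
          rw [e00, e11, e01, e10]
          linarith)
        refine ⟨Φ, hΦ, fun i => ?_⟩
        rcases hcov i with h | h
        · rw [h, hΦ0]; exact eq_of_same hP (hi₀.trans h.symm)
        · rw [h, hΦ1]; exact eq_of_same hP (hi₁.trans h.symm)
      · obtain ⟨Φ, hΦ, hΦ0, hΦ1⟩ := extend_two p (W i₀) (W i₀) (by
          intro w₀ w₁
          have a1 := pull hP ![i₀] ![w₀]
          have a2 := pull hP ![i₀] ![w₁]
          have a3 := pull hP ![i₀] ![w₀ - w₁]
          simp only [Fin.sum_univ_one, Matrix.cons_val_zero, hi₀, Fin.isValue] at a1 a2 a3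
          have k1 : kap (p 0) (p 0) = 1 := by simp [kap]
          rw [k1] at a1 a2 a3
          have e00 : nf (adjMap ![W i₀, W i₀]) 0 0 w₀ w₀ = nf (adjMap W) i₀ i₀ w₀ w₀ := rfl
          have e11 : nf (adjMap ![W i₀, W i₀]) 1 1 w₁ w₁ = nf (adjMap W) i₀ i₀ w₁ w₁ := rfl
          have e01 : nf (adjMap ![W i₀, W i₀]) 0 1 w₀ w₁ = nf (adjMap W) i₀ i₀ w₀ w₁ := rfl
          have e10 : nf (adjMap ![W i₀, W i₀]) 1 0 w₁ w₀ = nf (adjMap W) i₀ i₀ w₁ w₀ := rfl
          rw [e00, e11, e01, e10]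
          have a4 : nf (adjMap W) i₀ i₀ (w₀ - w₁) (w₀ - w₁) = nf (adjMap W) i₀ i₀ w₀ w₀ -
              nf (adjMap W) i₀ i₀ w₀ w₁ - nf (adjMap W) i₀ i₀ w₁ w₀ +
              nf (adjMap W) i₀ i₀ w₁ w₁ := by
            simp only [nf, map_sub, inner_sub_left, inner_sub_right, Complex.sub_re]
            ring
          rw [a4] at a3
          linarith)
        refine ⟨Φ, hΦ, fun i => ?_⟩
        rcases hcov i with h | h
        · rw [h, hΦ0]; exact eq_of_same hP (hi₀.trans h.symm)
        · exact absurd ⟨i, h⟩ h1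
    · have h1 : ∃ i, z i = p 1 := by
        rcases hcov ⟨0, hn⟩ with h | h
        · exact absurd ⟨_, h⟩ h0
        · exact ⟨_, h⟩
      obtain ⟨i₀, hi₀⟩ := h1
      obtain ⟨Φ, hΦ, hΦ0, hΦ1⟩ := extend_two p (W i₀) (W i₀) (by
          intro w₀ w₁
          have a1 := pull hP ![i₀] ![w₀]
          have a2 := pull hP ![i₀] ![w₁]
          have a3 := pull hP ![i₀] ![w₀ - w₁]
          simp only [Fin.sum_univ_one, Matrix.cons_val_zero, hi₀, Fin.isValue] at a1 a2 a3
          have k1 : kap (p 1) (p 1) = 1 := by simp [kap]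
          rw [k1] at a1 a2 a3
          have e00 : nf (adjMap ![W i₀, W i₀]) 0 0 w₀ w₀ = nf (adjMap W) i₀ i₀ w₀ w₀ := rfl
          have e11 : nf (adjMap ![W i₀, W i₀]) 1 1 w₁ w₁ = nf (adjMap W) i₀ i₀ w₁ w₁ := rfl
          have e01 : nf (adjMap ![W i₀, W i₀]) 0 1 w₀ w₁ = nf (adjMap W) i₀ i₀ w₀ w₁ := rfl
          have e10 : nf (adjMap ![W i₀, W i₀]) 1 0 w₁ w₀ = nf (adjMap W) i₀ i₀ w₁ w₀ := rfl
          rw [e00, e11, e01, e10]
          have a4 : nf (adjMap W) i₀ i₀ (w₀ - w₁) (w₀ - w₁) = nf (adjMap W) i₀ i₀ w₀ w₀ -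
              nf (adjMap W) i₀ i₀ w₀ w₁ - nf (adjMap W) i₀ i₀ w₁ w₀ +
              nf (adjMap W) i₀ i₀ w₁ w₁ := by
            simp only [nf, map_sub, inner_sub_left, inner_sub_right, Complex.sub_re]
            ring
          rw [a4] at a3
          linarith)
      refine ⟨Φ, hΦ, fun i => ?_⟩
      rcases hcov i with h | h
      · exact absurd ⟨i, h⟩ h0
      · rw [h, hΦ1]; exact eq_of_same hP (hi₀.trans h.symm)

end Q93.Pick.Three
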