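import Pool.Agent.Q93.Pick.Mult

/-!
The certificates for the three-point kernels `1, -2/5` and `1, 1/4`.
-/

set_option autoImplicit false
set_option maxHeartbeats 4000000

namespace Q93.Pick.Three

open scoped InnerProductSpace ComplexOrder ComplexConjugate
open Matrix Pool.Agent.H770R3.Shim Q93.Pick

variable {N : ℕ}

/-- the first kernel -/
noncomputable def kap (i j : Fin 3) : ℝ := if i = j then 1 else -2 / 5

/-- the second kernel -/
noncomputable def lam (i j : Fin 3) : ℝ := if i = j then 1 else 1 / 4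

lemma kap_eq : kap = fun i j => ![![1, -2 / 5, -2 / 5], ![-2 / 5, 1, -2 / 5],
    ![-2 / 5, -2 / 5, (1 : ℝ)]] i j := by
  funext i j
  fin_cases i <;> fin_cases j <;> simp [kap]

lemma lam_eq : lam = fun i j => ![![1, 1 / 4, 1 / 4], ![1 / 4, 1, 1 / 4],
    ![1 / 4, 1 / 4, (1 : ℝ)]] i j := by
  funext i j
  fin_cases i <;> fin_cases j <;> simp [lam]

/-- the real part of `⟨(1 - W_i W_j^*) w, u⟩` -/
noncomputable def nf {ι : Type*} (A : ι → E N →ₗ[ℂ] E N) (i j : ι) (u w : E N) : ℝ :=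
  (⟪u, w⟫_ℂ).re - (⟪A i u, A j w⟫_ℂ).re

lemma nf_add_left {ι : Type*} (A : ι → E N →ₗ[ℂ] E N) (i j : ι) (u u' w : E N) :
    nf A i j (u + u') w = nf A i j u w + nf A i j u' w := by
  simp only [nf, map_add, inner_add_left, Complex.add_re]; ring

lemma nf_add_right {ι : Type*} (A : ι → E N →ₗ[ℂ] E N) (i j : ι) (u w w' : E N) :
    nf A i j u (w + w') = nf A i j u w + nf A i j u w' := by
  simp only [nf, map_add, inner_add_right, Complex.add_re]; ring

lemma nf_smul_left {ι : Type*} (A : ι → E N →ₗ[ℂ] E N) (i j : ι) (c : ℝ) (u w : E N) :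
    nf A i j ((c : ℂ) • u) w = c * nf A i j u w := by
  simp only [nf, map_smul, inner_smul_left, Complex.conj_ofReal, Complex.re_ofReal_mul]; ring

lemma nf_smul_right {ι : Type*} (A : ι → E N →ₗ[ℂ] E N) (i j : ι) (c : ℝ) (u w : E N) :
    nf A i j u ((c : ℂ) • w) = c * nf A i j u w := by
  simp only [nf, map_smul, inner_smul_right, Complex.re_ofReal_mul]; ring

lemma nf_expand {ι : Type*} (A : ι → E N →ₗ[ℂ] E N) (i j : ι) (a b : Fin 3 → ℝ) (v : Fin 3 → E N) :
    nf A i j (∑ m, (a m : ℂ) • v m) (∑ m, (b m : ℂ) • v m) =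
      ∑ m, ∑ m', a m * b m' * nf A i j (v m) (v m') := by
  simp only [Fin.sum_univ_three, nf_add_left, nf_add_right, nf_smul_left, nf_smul_right]
  ring

lemma kform {A : Fin 3 → E N →ₗ[ℂ] E N}
    (hk : ∀ w : Fin 3 → E N, 0 ≤ ∑ i, ∑ j, kap i j * nf A i j (w i) (w j))
    (T : Fin 3 → Fin 3 → ℝ) (v : Fin 3 → E N) :
    0 ≤ ∑ i, ∑ j, kap i j * ∑ m, ∑ m', T i m * T j m' * nf A i j (v m) (v m') := by
  have := hk fun i => ∑ m, (T i m : ℂ) • v m
  simpa only [nf_expand] using this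

lemma rform_aux (A : Fin 3 → E N →ₗ[ℂ] E N) (w : Fin 3 → E N) (hw : ∑ i, w i = 0) :
    0 ≤ - ∑ i, ∑ j, nf A i j (w i) (w j) := by
  have h1 : ∑ i, ∑ j, nf A i j (w i) (w j) =
      (⟪∑ i, w i, ∑ j, w j⟫_ℂ).re - (⟪∑ i, A i (w i), ∑ j, A j (w j)⟫_ℂ).re := by
    simp only [nf, sum_inner, inner_sum, Complex.re_sum, Finset.sum_sub_distrib]
    congr 1
    · exact Finset.sum_comm
    · exact Finset.sum_comm
  rw [h1, hw, inner_zero_left, Complex.zero_re, zero_sub, neg_neg]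
  exact inner_self_nonneg (𝕜 := ℂ)

lemma rform (A : Fin 3 → E N →ₗ[ℂ] E N) (T : Fin 3 → Fin 3 → ℝ)
    (hT : ∀ m, T 0 m + T 1 m + T 2 m = 0) (v : Fin 3 → E N) :
    0 ≤ - ∑ i, ∑ j, ∑ m, ∑ m', T i m * T j m' * nf A i j (v m) (v m') := by
  have := rform_aux A (fun i => ∑ m, (T i m : ℂ) • v m) (by
    rw [Finset.sum_comm]
    apply Finset.sum_eq_zero
    intro m _
    rw [← Finset.sum_smul, Fin.sum_univ_three]
    have h : ((T 0 m : ℂ) + (T 1 m : ℂ) + (T 2 m : ℂ)) = 0 := by exact_mod_cast hT m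
    rw [h, zero_smul])
  simpa only [nf_expand] using this


theorem three_point {A : Fin 3 → E N →ₗ[ℂ] E N}
    (hk : ∀ w : Fin 3 → E N, 0 ≤ ∑ i, ∑ j, kap i j * nf A i j (w i) (w j)) (v : Fin 3 → E N) :
    0 ≤ ∑ i, ∑ j, lam i j * nf A i j (v i) (v j) := by
  have k0 := kform hk ![![96, 4, 4], ![30, -25, -10], ![30, -10, -25]] v
  have k1 := kform hk ![![0, 76, -20], ![42, 149, 2], ![-6, 50, -43]] v
  have k2 := kform hk ![![0, 0, 56], ![4, -3, 40], ![32, 12, 109]] v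
  have k3 := kform hk ![![0, 0, 0], ![12, -37, -13], ![5, -20, 5]] v
  have k4 := kform hk ![![0, 0, 0], ![0, 59, -22], ![14, -8, -49]] v
  have k5 := kform hk ![![0, 0, 0], ![0, 0, 175], ![-47, 128, 194]] v
  have k6 := kform hk ![![0, 0, 0], ![0, 0, 0], ![2, 2, -9]] v
  have k7 := kform hk ![![0, 0, 0], ![0, 0, 0], ![0, 0, 1]] v
  have r0 := rform A ![![6, 1, 1], ![-3, -2, 1], ![-3, 1, -2]] (by intro m; fin_cases m <;> norm_num [Matrix.cons_val_zero, Matrix.cons_val_one, Matrix.cons_val_two]) v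
  have r1 := rform A ![![0, 23, -7], ![-3, -16, -1], ![3, -7, 8]] (by intro m; fin_cases m <;> norm_num [Matrix.cons_val_zero, Matrix.cons_val_one, Matrix.cons_val_two]) v
  have r2 := rform A ![![0, 0, 20], ![2, 3, -7], ![-2, -3, -13]] (by intro m; fin_cases m <;> norm_num [Matrix.cons_val_zero, Matrix.cons_val_one, Matrix.cons_val_two]) v
  have r3 := rform A ![![0, 0, 0], ![6, -1, -1], ![-6, 1, 1]] (by intro m; fin_cases m <;> norm_num [Matrix.cons_val_zero, Matrix.cons_val_one, Matrix.cons_val_two]) v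
  have r4 := rform A ![![0, 0, 0], ![0, 5, 2], ![0, -5, -2]] (by intro m; fin_cases m <;> norm_num [Matrix.cons_val_zero, Matrix.cons_val_one, Matrix.cons_val_two]) v
  have r5 := rform A ![![0, 0, 0], ![0, 0, 1], ![0, 0, -1]] (by intro m; fin_cases m <;> norm_num [Matrix.cons_val_zero, Matrix.cons_val_one, Matrix.cons_val_two]) v
  clear hk
  simp only [Fin.sum_univ_three, kap_eq, lam_eq, Matrix.cons_val_zero,
    Matrix.cons_val_one, Matrix.cons_val] at *
  norm_num at *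
  linarith

end Q93.Pick.Three
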