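import Pool.Agent.Q93.Pick.Three

/-!
Two-point data for the three-point kernels, and reduction of general data.
-/

set_option autoImplicit false
set_option maxHeartbeats 4000000

namespace Q93.Pick.Three

open scoped InnerProductSpace ComplexOrder ComplexConjugate
open Matrix Pool.Agent.H770R3.Shim Q93.Pick

variable {N : ℕ}

lemma nf_half_left {A : Fin 3 → E N →ₗ[ℂ] E N} (h2 : ∀ u, A 2 u = (1 / 2 : ℂ) • (A 0 u + A 1 u))
    (j : Fin 3) (u w : E N) : nf A 2 j u w = (nf A 0 j u w + nf A 1 j u w) / 2 := by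
  simp only [nf, h2]
  rw [inner_smul_left, inner_add_left]
  have : (starRingEnd ℂ) (1 / 2 : ℂ) = ((1 / 2 : ℝ) : ℂ) := by
    rw [show (1 / 2 : ℂ) = ((1 / 2 : ℝ) : ℂ) by simp, Complex.conj_ofReal]
  rw [this, Complex.re_ofReal_mul, Complex.add_re]
  ring

lemma nf_half_right {A : Fin 3 → E N →ₗ[ℂ] E N} (h2 : ∀ u, A 2 u = (1 / 2 : ℂ) • (A 0 u + A 1 u))
    (i : Fin 3) (u w : E N) : nf A i 2 u w = (nf A i 0 u w + nf A i 1 u w) / 2 := by
  simp only [nf, h2]
  rw [inner_smul_right, inner_add_right]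
  have : (1 / 2 : ℂ) = ((1 / 2 : ℝ) : ℂ) := by simp
  rw [this, Complex.re_ofReal_mul, Complex.add_re]
  ring

theorem two_point {A : Fin 3 → E N →ₗ[ℂ] E N} (h2 : ∀ u, A 2 u = (1 / 2 : ℂ) • (A 0 u + A 1 u))
    (hk : ∀ w₀ w₁ : E N, 0 ≤ nf A 0 0 w₀ w₀ + nf A 1 1 w₁ w₁ -
      2 / 5 * (nf A 0 1 w₀ w₁ + nf A 1 0 w₁ w₀)) (v : Fin 3 → E N) :
    0 ≤ ∑ i, ∑ j, lam i j * nf A i j (v i) (v j) := by
  have k1 := hk (v 0 + ((-1 / 2 : ℝ) : ℂ) • v 2) (v 1 + ((-1 / 2 : ℝ) : ℂ) • v 2)
  have k2 := hk (v 2) (v 2)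
  have k3 := hk (v 0 + ((7 / 26 : ℝ) : ℂ) • v 2)
    (((-1 : ℝ) : ℂ) • v 1 + ((-7 / 26 : ℝ) : ℂ) • v 2)
  have k4 := hk (v 2) (((-1 : ℝ) : ℂ) • v 2)
  have r1 : 0 ≤ nf A 0 1 (v 2) (v 2) + nf A 1 0 (v 2) (v 2) - nf A 0 0 (v 2) (v 2) -
      nf A 1 1 (v 2) (v 2) := by
    have h : nf A 0 1 (v 2) (v 2) + nf A 1 0 (v 2) (v 2) - nf A 0 0 (v 2) (v 2) -
      nf A 1 1 (v 2) (v 2) = (⟪A 0 (v 2) - A 1 (v 2), A 0 (v 2) - A 1 (v 2)⟫_ℂ).re := by
      simp only [nf, inner_sub_left, inner_sub_right, Complex.sub_re]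
      ring
    rw [h]
    exact inner_self_nonneg (𝕜 := ℂ)
  clear hk
  simp only [Fin.sum_univ_three, lam_eq, Matrix.cons_val_zero, Matrix.cons_val_one,
    Matrix.cons_val, nf_half_left h2, nf_half_right h2, nf_add_left, nf_add_right,
    nf_smul_left, nf_smul_right] at *
  linarith

lemma lam_perm (p : Equiv.Perm (Fin 3)) (i j : Fin 3) : lam (p i) (p j) = lam i j := by
  simp [lam]

lemma kap_perm (p : Equiv.Perm (Fin 3)) (i j : Fin 3) : kap (p i) (p j) = kap i j := by
  simp [kap]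

/-- The quadratic form of general data pulled back to a family of indices. -/
lemma pull {ι κ : Type*} [Fintype ι] [Fintype κ] [DecidableEq ι] {B : ι → E N →ₗ[ℂ] E N}
    {c : ι → ι → ℝ} (hP : ∀ h : ι → E N, 0 ≤ ∑ i, ∑ j, c i j * nf B i j (h i) (h j))
    (e : κ → ι) (w : κ → E N) :
    0 ≤ ∑ a, ∑ b, c (e a) (e b) * nf B (e a) (e b) (w a) (w b) := by
  have hsl : ∀ (i j : ι) (s : Finset κ) (f : κ → E N) (u : E N),
      nf B i j (∑ a ∈ s, f a) u = ∑ a ∈ s, nf B i j (f a) u := by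
    intro i j s f u
    simp only [nf, map_sum, sum_inner, Complex.re_sum, Finset.sum_sub_distrib]
  have hsr : ∀ (i j : ι) (s : Finset κ) (f : κ → E N) (u : E N),
      nf B i j u (∑ a ∈ s, f a) = ∑ a ∈ s, nf B i j u (f a) := by
    intro i j s f u
    simp only [nf, map_sum, inner_sum, Complex.re_sum, Finset.sum_sub_distrib]
  have h0l : ∀ i j u, nf B i j 0 u = 0 := by intro i j u; simp [nf]
  have h0r : ∀ i j u, nf B i j u 0 = 0 := by intro i j u; simp [nf]
  have h := hP fun i => ∑ a, if e a = i then w a else 0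
  have e1 : ∑ i, ∑ j, c i j * nf B i j (∑ a, if e a = i then w a else 0)
      (∑ b, if e b = j then w b else 0) =
      ∑ a, ∑ b, c (e a) (e b) * nf B (e a) (e b) (w a) (w b) := by
    have e2 : ∀ i j, c i j * nf B i j (∑ a, if e a = i then w a else 0)
        (∑ b, if e b = j then w b else 0) =
        ∑ a, ∑ b, if e a = i then (if e b = j then c i j * nf B i j (w a) (w b) else 0) else 0 := by
      intro i j
      rw [hsl, Finset.mul_sum]
      apply Finset.sum_congr rfl
      intro a _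
      rw [hsr, Finset.mul_sum]
      apply Finset.sum_congr rfl
      intro b _
      by_cases h1 : e a = i
      · by_cases h2 : e b = j
        · simp [h1, h2]
        · simp [h1, h2, h0r]
      · simp [h1, h0l]
    simp_rw [e2]
    calc ∑ i, ∑ j, ∑ a, ∑ b,
          (if e a = i then (if e b = j then c i j * nf B i j (w a) (w b) else 0) else 0)
        = ∑ i, ∑ a, ∑ j, ∑ b,
          (if e a = i then (if e b = j then c i j * nf B i j (w a) (w b) else 0) else 0) := by
          apply Finset.sum_congr rfl; intro i _; exact Finset.sum_comm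
      _ = ∑ a, ∑ i, ∑ j, ∑ b,
          (if e a = i then (if e b = j then c i j * nf B i j (w a) (w b) else 0) else 0) :=
          Finset.sum_comm
      _ = ∑ a, ∑ b, c (e a) (e b) * nf B (e a) (e b) (w a) (w b) := by
          apply Finset.sum_congr rfl
          intro a _
          rw [Finset.sum_eq_single (e a)]
          · rw [Finset.sum_comm]
            apply Finset.sum_congr rfl
            intro b _
            simp
          · intro i _ hi
            simp [Ne.symm hi]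
          · intro h; exact absurd (Finset.mem_univ _) h
  rw [e1] at h
  exact h

end Q93.Pick.Three
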